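import Pool.Agent.Lib.MP_305fdd_al.To.VT.Lat

/-!
# MP_305fdd_al, lattices with torsion: torsion free subgroups of finite index

`exists_tf`: a cocompact lattice has a torsion free normal subgroup of finite index.
`sub`: subgroups of finite index are cocompact lattices.  `not_comm`: a cocompact lattice is not
commutative.
-/

set_option autoImplicit false

namespace Pool.Agent.ToVT

open Pool.Agent.ToST

section lat

variable {G : Type} [Group G] (L : Lat G)

/-! ## Torsion -/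

/-- a torsion element has a fixed point -/
theorem exists_fix {g : G} {n : ℕ} (hn : 0 < n) (hg : g ^ n = 1) : ∃ Z ∈ Om, L.act g Z = Z := by
  refine ⟨∑ i ∈ Finset.range n, L.act (g ^ i) L.P, ?_, ?_⟩
  · refine Finset.sum_induction_nonempty (fun i => L.act (g ^ i) L.P) (fun Z => Z ∈ Om)
      (fun a b ha hb => Om_add ha hb) (Finset.nonempty_range_iff.2 hn.ne') fun i _ => act_mem L _
  · rw [map_sum]
    have h1 := Finset.sum_range_succ' (fun i => L.act (g ^ i) L.P) n
    have h2 := Finset.sum_range_succ (fun i => L.act (g ^ i) L.P) n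
    rw [h1, hg, pow_zero] at h2
    have h3 := add_right_cancel h2
    rw [← h3]
    refine Finset.sum_congr rfl fun i _ => ?_
    rw [← act_mul L, ← pow_succ']

include L in
/-- torsion elements are conjugate into a finite set -/
theorem exists_conj : ∃ S : Set G, S.Finite ∧ ∀ g : G, ∀ n : ℕ, 0 < n → g ^ n = 1 →
    ∃ h : G, h⁻¹ * g * h ∈ S := by
  obtain ⟨R, hR0, hR⟩ := coc1 L
  refine ⟨{g | B L.P (L.act g L.P) ≤ 2 * (R * R)}, L.fin _, fun g n hn hg => ?_⟩
  obtain ⟨Z, hZ, hfix⟩ := exists_fix L hn hg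
  obtain ⟨c, hc, hZ1, hZ2⟩ := exists_unit hZ
  obtain ⟨h, hh⟩ := hR _ hZ1 hZ2
  refine ⟨h, ?_⟩
  change B L.P (L.act (h⁻¹ * g * h) L.P) ≤ 2 * (R * R)
  have e1 : B L.P (L.act (h⁻¹ * g * h) L.P) = B (L.act h L.P) (L.act g (L.act h L.P)) := by
    rw [act_mul L, act_mul L, B_comm, B_inv L, B_comm]
  rw [e1]
  have e2 := tri (act_mem L h) hZ1 (L.Om_act g _ (act_mem L h)) hZ2
  have e3 : B (c • Z) (L.act g (L.act h L.P)) = B (c • Z) (L.act h L.P) := by
    have e4 : L.act g (c • Z) = c • Z := by rw [map_smul, hfix]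
    conv_lhs => rw [← e4]
    exact L.B_act _ _ _
  rw [e3, B_comm (L.act h L.P) (c • Z)] at e2
  refine e2.trans ?_
  have p := B_pos hZ1 (act_mem L h)
  gcongr

include L in
/-- TORSION FREE SUBGROUPS OF FINITE INDEX -/
theorem exists_tf : ∃ N : Subgroup G, N.Normal ∧ N.FiniteIndex ∧
    ∀ g ∈ N, ∀ n : ℕ, 0 < n → g ^ n = 1 → g = 1 := by
  obtain ⟨S, hS, h1⟩ := exists_conj L
  obtain ⟨N, hN, hN2, h2⟩ := avoid L (S \ {1}) hS.sdiff fun g hg h => hg.2 h
  refine ⟨N, hN, hN2, fun g hg n hn hgn => ?_⟩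
  obtain ⟨h, hh⟩ := h1 g n hn hgn
  by_contra hne
  have h3 : h⁻¹ * g * h ∈ N := by
    have := hN.conj_mem g hg h⁻¹
    rwa [inv_inv] at this
  refine h2 _ ⟨hh, fun h4 => hne ?_⟩ h3
  rw [Set.mem_singleton_iff] at h4
  have h5 : g = h * (h⁻¹ * g * h) * h⁻¹ := by group
  rw [h5, h4]
  group

/-! ## Subgroups of finite index -/

/-- a subgroup of finite index of a cocompact lattice is a cocompact lattice -/
def sub (N : Subgroup G) [hN : N.FiniteIndex] : Lat N where
  act := L.act.comp N.subtype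
  B_act g := L.B_act g
  det_act g := L.det_act g
  Om_act g := L.Om_act g
  P := L.P
  P_mem := L.P_mem
  P_one := L.P_one
  free g hg := Subtype.ext (L.free g hg)
  fin r := (L.fin r).preimage Subtype.val_injective.injOn
  coc := by
    obtain ⟨R, hR⟩ := L.coc
    have hfin : Finite (G ⧸ N) := Subgroup.finite_quotient_of_finiteIndex
    obtain ⟨M, hM⟩ := (Set.finite_range fun q : G ⧸ N => B (L.act q.out⁻¹ L.P) L.P).bddAbove
    refine ⟨4 * M ^ 2 * R, fun Z hZ => ?_⟩
    obtain ⟨g, hg⟩ := hR Z hZ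
    obtain ⟨q, hq⟩ : ∃ q : G ⧸ N, q = (QuotientGroup.mk g⁻¹ : G ⧸ N) := ⟨_, rfl⟩
    have hmem : g * q.out ∈ N := by
      have h1 : (QuotientGroup.mk g⁻¹ : G ⧸ N) = QuotientGroup.mk q.out := by
        rw [QuotientGroup.out_eq', hq]
      rw [QuotientGroup.eq, inv_inv] at h1
      exact h1
    refine ⟨⟨g * q.out, hmem⟩, ?_⟩
    change (B Z (L.act (g * q.out) L.P)) ^ 2 ≤ _
    have e1 := tri hZ (act_mem L g) (act_mem L (g * q.out)) (act_one L g)
    have e2 : B (L.act g L.P) (L.act (g * q.out) L.P) = B (L.act q.out⁻¹ L.P) L.P := by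
      rw [act_mul L, L.B_act, B_inv L]
    have e3 : B (L.act q.out⁻¹ L.P) L.P ≤ M := hM ⟨q, rfl⟩
    have p1 := B_pos hZ (act_mem L g)
    have p2 := B_pos hZ (act_mem L (g * q.out))
    have p3 := B_pos (act_mem L q.out⁻¹) L.P_mem
    rw [e2] at e1
    have e4 : B Z (L.act (g * q.out) L.P) ≤ 2 * (B Z (L.act g L.P) * M) := e1.trans (by gcongr)
    calc (B Z (L.act (g * q.out) L.P)) ^ 2 ≤ (2 * (B Z (L.act g L.P) * M)) ^ 2 := by gcongr
      _ = 4 * M ^ 2 * (B Z (L.act g L.P)) ^ 2 := by ring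
      _ ≤ 4 * M ^ 2 * (R * B Z Z) := by gcongr
      _ = 4 * M ^ 2 * R * B Z Z := by ring

/-! ## Commutative groups -/

/-- the centraliser of `x` is cocompact -/
def Cc (x : G) : Prop := ∃ R : ℝ, 0 < R ∧ ∀ Z ∈ Om, B Z Z = 1 →
  ∃ g : G, x * g = g * x ∧ B Z (L.act g L.P) ≤ R

/-- if the centraliser of `x` is cocompact then the displacement of `x` is bounded -/
theorem disp {x : G} (hc : Cc L x) : ∃ C : ℝ, 0 < C ∧ ∀ Z ∈ Om,
    B Z (L.act x Z) ≤ C * B Z Z := by
  obtain ⟨R, hR0, hR⟩ := hc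
  have hx := B_pos L.P_mem (act_mem L x)
  refine ⟨4 * R ^ 2 * B L.P (L.act x L.P), by positivity, fun Z hZ => ?_⟩
  obtain ⟨c, hc0, hZ1, hZ2⟩ := exists_unit hZ
  obtain ⟨g, hgx, hg⟩ := hR _ hZ1 hZ2
  obtain ⟨W, hW⟩ : ∃ W, W = c • Z := ⟨_, rfl⟩
  rw [← hW] at hZ1 hZ2 hg
  have e1 := tri hZ1 (act_mem L g) (L.Om_act x _ hZ1) (act_one L g)
  have e2 := tri (act_mem L g) (L.Om_act x _ (act_mem L g)) (L.Om_act x _ hZ1) (by
    rw [L.B_act, act_one L])
  rw [L.B_act, B_comm _ W] at e2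
  have e3 : B (L.act g L.P) (L.act x (L.act g L.P)) = B L.P (L.act x L.P) := by
    rw [← act_mul L, hgx, act_mul L, L.B_act]
  rw [e3] at e2
  have p1 := B_pos hZ1 (act_mem L g)
  have p2 := B_pos (act_mem L g) (L.Om_act x _ hZ1)
  have e4 : B W (L.act x W) ≤ 4 * R ^ 2 * B L.P (L.act x L.P) := by
    calc B W (L.act x W) ≤ 2 * (B W (L.act g L.P) * B (L.act g L.P) (L.act x W)) := e1
      _ ≤ 2 * (R * (2 * (B L.P (L.act x L.P) * R))) := by
        gcongr
        exact e2.trans (by gcongr)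
      _ = 4 * R ^ 2 * B L.P (L.act x L.P) := by ring
  have e5 : B W (L.act x W) = c ^ 2 * B Z (L.act x Z) := by
    rw [hW, map_smul, B_smul_left, B_smul_right]
    ring
  have e6 : c ^ 2 * B Z Z = 1 := by
    rw [← hZ2, hW, B_smul_left, B_smul_right]
    ring
  rw [e5] at e4
  have hc2 : 0 < c ^ 2 := by positivity
  have e7 : c ^ 2 * B Z (L.act x Z) ≤ c ^ 2 * (4 * R ^ 2 * B L.P (L.act x L.P) * B Z Z) := by
    calc c ^ 2 * B Z (L.act x Z) ≤ 4 * R ^ 2 * B L.P (L.act x L.P) := e4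
      _ = 4 * R ^ 2 * B L.P (L.act x L.P) * (c ^ 2 * B Z Z) := by rw [e6, mul_one]
      _ = c ^ 2 * (4 * R ^ 2 * B L.P (L.act x L.P) * B Z Z) := by ring
  exact le_of_mul_le_mul_left e7 hc2

/-- the light cone is preserved, with the direction of time -/
theorem light_pos {u : V} (h0 : B u u = 0) (hu : 0 < u 0) (x : G) : 0 < (L.act x u) 0 := by
  have h1 : 0 < B L.P (L.act x u) := by
    have h2 := B_inv L x L.P u
    rw [← h2]
    exact B_pos' (act_mem L x⁻¹) h0.ge hu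
  have h2 : B (L.act x u) (L.act x u) = 0 := by rw [L.B_act, h0]
  by_contra hn
  push Not at hn
  rcases hn.lt_or_eq with h | h
  · have h3 : 0 < B L.P (-(L.act x u)) := B_pos' L.P_mem (by
      rw [B_neg_left, B_neg_right, h2]
      simp) (by
      rw [Pi.neg_apply]
      linarith)
    rw [B_neg_right] at h3
    linarith
  · have h4 : L.act x u = 0 := by
      have h5 := h2
      unfold B at h5
      rw [h] at h5
      have h6 : (L.act x u) 1 = 0 := by
        nlinarith [sq_nonneg ((L.act x u) 1), sq_nonneg ((L.act x u) 2)]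
      have h7 : (L.act x u) 2 = 0 := by
        nlinarith [sq_nonneg ((L.act x u) 1), sq_nonneg ((L.act x u) 2)]
      ext i
      fin_cases i
      · exact h
      · exact h6
      · exact h7
    rw [h4, B_zero_right] at h1
    exact lt_irrefl _ h1

theorem light_orth {x : G} (hc : Cc L x) {u : V} (h0 : B u u = 0) (hu : 0 < u 0) :
    B u (L.act x u) = 0 := by
  obtain ⟨C, hC, hd⟩ := disp L hc
  have hp := light_pos L h0 hu x
  have h2 : B (L.act x u) (L.act x u) = 0 := by rw [L.B_act, h0]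
  apply le_antisymm
  · by_contra hn
    push Not at hn
    obtain ⟨t, ht⟩ : ∃ t, t = B u (L.act x u) := ⟨_, rfl⟩
    rw [← ht] at hn
    have hb := B_pos' L.P_mem h0.ge hu
    obtain ⟨b, hbdef⟩ : ∃ b, b = B L.P u := ⟨_, rfl⟩
    rw [← hbdef] at hb
    obtain ⟨e, he⟩ : ∃ e, e = min 1 (t / (2 * (C * (2 * b + 1)))) := ⟨_, rfl⟩
    have he0 : 0 < e := by
      rw [he]
      refine lt_min one_pos ?_
      positivity
    have he1 : e ≤ 1 := by rw [he]; exact min_le_left _ _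
    have he2 : e * (2 * (C * (2 * b + 1))) ≤ t := by
      have h3 : e ≤ t / (2 * (C * (2 * b + 1))) := by rw [he]; exact min_le_right _ _
      rwa [le_div_iff₀ (by positivity)] at h3
    have h4 := hd _ (add_smul_mem h0.ge hu L.P_mem he0)
    rw [map_add, map_smul] at h4
    simp only [B_add_left, B_add_right, B_smul_left, B_smul_right, h0, L.P_one] at h4
    have q1 : 0 < B u (L.act x L.P) := by
      rw [B_comm]
      exact B_pos' (act_mem L x) h0.ge hu
    have q2 : 0 < B L.P (L.act x u) := by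
      rw [← B_inv L]
      exact B_pos' (act_mem L x⁻¹) h0.ge hu
    have q3 : 0 < B L.P (L.act x L.P) := B_pos L.P_mem (act_mem L x)
    rw [← ht, B_comm u L.P, ← hbdef] at h4
    have h5 : t ≤ C * (2 * b * e + e ^ 2) := by
      nlinarith [mul_pos he0 q1, mul_pos he0 q2, mul_pos he0 (mul_pos he0 q3)]
    have h6 : C * (2 * b * e + e ^ 2) ≤ C * (e * (2 * b + 1)) := by
      apply mul_le_mul_of_nonneg_left _ hC.le
      nlinarith
    nlinarith
  · unfold B
    unfold B at h0 h2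
    have h3 : (u 1 * (L.act x u) 1 + u 2 * (L.act x u) 2) ^ 2 ≤ (u 0 * (L.act x u) 0) ^ 2 := by
      have h4 : (u 1 * (L.act x u) 1 + u 2 * (L.act x u) 2) ^ 2 ≤
          (u 1 ^ 2 + u 2 ^ 2) * ((L.act x u) 1 ^ 2 + (L.act x u) 2 ^ 2) := by
        nlinarith [sq_nonneg (u 1 * (L.act x u) 2 - u 2 * (L.act x u) 1)]
      have h5 : u 1 ^ 2 + u 2 ^ 2 = u 0 ^ 2 := by nlinarith
      have h6 : (L.act x u) 1 ^ 2 + (L.act x u) 2 ^ 2 = (L.act x u) 0 ^ 2 := by nlinarith
      rw [h5, h6] at h4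
      calc _ ≤ _ := h4
        _ = _ := by ring
    have h7 := abs_le_of_sq_le_sq h3 (mul_pos hu hp).le
    have h8 := (le_abs_self _).trans h7
    linarith

/-- if the centraliser of `x` is cocompact then `x = 1` -/
theorem eq_one_of_Cc {x : G} (hc : Cc L x) : x = 1 := by
    apply L.free
    have a1 : B ![1, 1, 0] ![1, 1, 0] = 0 := by simp [B]
    have a2 : B ![1, -1, 0] ![1, -1, 0] = 0 := by simp [B]
    have a3 : B ![1, 0, 1] ![1, 0, 1] = 0 := by simp [B]
    have b1 := light1 ((L.B_act x _ _).trans a1) (light_orth L hc a1 (by simp))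
    have b2 := light2 ((L.B_act x _ _).trans a2) (light_orth L hc a2 (by simp))
    have b3 := light3 ((L.B_act x _ _).trans a3) (light_orth L hc a3 (by simp))
    have c1 := light_pos L a1 (by simp) x
    have c2 := light_pos L a2 (by simp) x
    have c3 := light_pos L a3 (by simp) x
    obtain ⟨l1, hl1⟩ : ∃ l, l = (L.act x ![1, 1, 0]) 0 := ⟨_, rfl⟩
    obtain ⟨l2, hl2⟩ : ∃ l, l = (L.act x ![1, -1, 0]) 0 := ⟨_, rfl⟩
    obtain ⟨l3, hl3⟩ : ∃ l, l = (L.act x ![1, 0, 1]) 0 := ⟨_, rfl⟩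
    rw [← hl1] at b1 c1
    rw [← hl2] at b2 c2
    rw [← hl3] at b3 c3
    have d1 := L.B_act x ![1, 1, 0] ![1, -1, 0]
    have d2 := L.B_act x ![1, 1, 0] ![1, 0, 1]
    have d3 := L.B_act x ![1, -1, 0] ![1, 0, 1]
    rw [b1, b2, B_smul_left, B_smul_right] at d1
    rw [b1, b3, B_smul_left, B_smul_right] at d2
    rw [b2, b3, B_smul_left, B_smul_right] at d3
    have f1 : B ![1, 1, 0] ![1, -1, 0] = 2 := by simp [B]; norm_num
    have f2 : B ![1, 1, 0] ![1, 0, 1] = 1 := by simp [B]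
    have f3 : B ![1, -1, 0] ![1, 0, 1] = 1 := by simp [B]
    rw [f1] at d1
    rw [f2] at d2
    rw [f3] at d3
    have g1 : l1 * l2 = 1 := by linarith
    have g2 : l1 * l3 = 1 := by linarith
    have g3 : l2 * l3 = 1 := by linarith
    have i1 : l2 = l3 := by
      have : l1 * (l2 - l3) = 0 := by linarith
      rcases mul_eq_zero.1 this with h | h
      · exact absurd h c1.ne'
      · linarith
    have i2 : l3 = 1 := by
      rw [i1] at g3
      nlinarith
    have i3 : l2 = 1 := i1.trans i2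
    have i4 : l1 = 1 := by rw [i3, mul_one] at g1; exact g1
    rw [i4, one_smul] at b1
    rw [i3, one_smul] at b2
    rw [i2, one_smul] at b3
    have j1 : L.P = ((L.P 0 - L.P 2 + L.P 1) / 2) • (![1, 1, 0] : V) +
        ((L.P 0 - L.P 2 - L.P 1) / 2) • (![1, -1, 0] : V) + (L.P 2) • (![1, 0, 1] : V) := by
      ext i
      fin_cases i
      · simp
        ring
      · simp
        ring
      · simp
    have j2 : L.act x L.P = L.P := by
      conv_lhs => rw [j1]
      rw [map_add, map_add, map_smul, map_smul, map_smul, b1, b2, b3]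
      exact j1.symm
    exact j2

include L in
/-- an element which commutes with a subgroup of finite index is `1` -/
theorem cen (H : Subgroup G) [H.FiniteIndex] (x : G) (hx : ∀ y ∈ H, x * y = y * x) : x = 1 := by
  apply eq_one_of_Cc L
  obtain ⟨R, hR0, hR⟩ := coc1 (sub L H)
  refine ⟨R, hR0, fun Z hZ h1 => ?_⟩
  obtain ⟨y, hy⟩ := hR Z hZ h1
  exact ⟨y, hx y y.2, hy⟩

include L in
/-- a cocompact lattice is not commutative -/
theorem not_comm : ¬ ∀ x y : G, x * y = y * x := by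
  intro hc
  obtain ⟨R, hR0, hR⟩ := coc1 L
  have key : ∀ x : G, x = 1 := fun x => eq_one_of_Cc L ⟨R, hR0, fun Z hZ h1 => by
    obtain ⟨g, hg⟩ := hR Z hZ h1
    exact ⟨g, hc x g, hg⟩⟩
  obtain ⟨b, hb⟩ : ∃ b, b = B L.P ![1, 1, 0] := ⟨_, rfl⟩
  have a1 : B ![1, 1, 0] ![1, 1, 0] = 0 := by simp [B]
  have hb0 : 0 < b := by
    rw [hb]
    exact B_pos' L.P_mem a1.ge (by simp)
  obtain ⟨e, he⟩ : ∃ e, e = b / (3 * R ^ 2 + 1) := ⟨_, rfl⟩
  have he0 : 0 < e := by rw [he]; positivity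
  have he1 : e * (3 * R ^ 2 + 1) = b := by
    rw [he]
    field_simp
  obtain ⟨c, hc0, h1, h2⟩ := exists_unit (add_smul_mem a1.ge (by simp) L.P_mem he0)
  obtain ⟨g, hg⟩ := hR _ h1 h2
  rw [key g, act_id L] at hg
  simp only [B_add_left, B_add_right, B_smul_left, B_smul_right, a1, L.P_one] at hg h2
  rw [B_comm _ L.P, ← hb] at hg h2
  have k1 : c ^ 2 * (2 * e * b + e ^ 2) = 1 := by linarith
  have k2 : c * (b + e) ≤ R := by linarith
  have k3 : (c * (b + e)) ^ 2 ≤ R ^ 2 := by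
    apply pow_le_pow_left₀ _ k2
    positivity
  have k4 : (b + e) ^ 2 ≤ R ^ 2 * (2 * e * b + e ^ 2) := by
    have hc2 : 0 < c ^ 2 := by positivity
    have k5 : c ^ 2 * (b + e) ^ 2 ≤ c ^ 2 * (R ^ 2 * (2 * e * b + e ^ 2)) := by
      calc c ^ 2 * (b + e) ^ 2 = (c * (b + e)) ^ 2 := by ring
        _ ≤ R ^ 2 := k3
        _ = R ^ 2 * (c ^ 2 * (2 * e * b + e ^ 2)) := by rw [k1, mul_one]
        _ = _ := by ring
    exact le_of_mul_le_mul_left k5 hc2
  have k6 : e ≤ b := by nlinarith [sq_nonneg R]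
  have k7 : R ^ 2 * (2 * e * b + e ^ 2) ≤ R ^ 2 * (3 * e * b) := by
    apply mul_le_mul_of_nonneg_left _ (sq_nonneg R)
    nlinarith
  have k8 : R ^ 2 * (3 * e * b) < b ^ 2 := by
    have : R ^ 2 * (3 * e * b) + e * b = b ^ 2 := by
      calc R ^ 2 * (3 * e * b) + e * b = (e * (3 * R ^ 2 + 1)) * b := by ring
        _ = b ^ 2 := by rw [he1]; ring
    nlinarith [mul_pos he0 hb0]
  nlinarith

end lat

end Pool.Agent.ToVT
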