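import Pool.Agent.Lib.MP_305fdd_al.Solv.Ring

/-!
# MP_305fdd_al, lattices with torsion: finitely generated linear groups are residually finite

`malcev`: a finitely generated group with a faithful linear representation over a domain has, for every
finite set of elements different from one, a normal subgroup of finite index which avoids it.
-/

set_option autoImplicit false

namespace Pool.Agent.ToVT

open Pool.Agent.Lib.MP_305fdd_al.Solv

/-- the residue fields of finitely generated rings are finite -/
theorem finite_residue {R : Type} [CommRing R] [h0 : Algebra.FiniteType ℤ R] (m : Ideal R)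
    (hm : m.IsMaximal) : Finite (R ⧸ m) := by
  have h1 : (Int.castRingHom R).FiniteType := by
    have h1 : (algebraMap ℤ R).FiniteType := RingHom.finiteType_algebraMap.mpr h0
    have h2 : algebraMap ℤ R = Int.castRingHom R := RingHom.ext_int _ _
    rwa [h2] at h1
  have h2 : (Int.castRingHom (R ⧸ m)).FiniteType := by
    have h3 := (RingHom.FiniteType.of_surjective (Ideal.Quotient.mk m)
      Ideal.Quotient.mk_surjective).comp h1
    have h4 : (Ideal.Quotient.mk m).comp (Int.castRingHom R) =
      Int.castRingHom (R ⧸ m) := RingHom.ext_int _ _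
    rwa [h4] at h3
  let _ : Field (R ⧸ m) := Ideal.Quotient.field m
  exact finite_field _ h2

/-- a nonzero element of a finitely generated domain is not zero in some finite residue field -/
theorem exists_fin {R : Type} [CommRing R] [IsDomain R] [Algebra.FiniteType ℤ R] (x : R)
    (hx : x ≠ 0) : ∃ m : Ideal R, Finite (R ⧸ m) ∧ x ∉ m := by
  have := isJacobsonRing_int
  have hJ : IsJacobsonRing R := isJacobsonRing_of_finiteType (A := ℤ)
  have h1 : (⊥ : Ideal R).jacobson = ⊥ :=
    hJ.out (Ideal.IsPrime.isRadical Ideal.isPrime_bot)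
  by_contra hcon
  push Not at hcon
  apply hx
  have h2 : x ∈ (⊥ : Ideal R).jacobson := by
    rw [Ideal.jacobson, Ideal.mem_sInf]
    intro m hm
    exact hcon m (finite_residue m hm.2)
  rw [h1] at h2
  exact h2

theorem coe_mul {K : Type} [CommRing K] {A : Subalgebra ℤ K} {n : ℕ}
    (M N : Matrix (Fin n) (Fin n) A) (i j : Fin n) :
    (((M * N) i j : A) : K) = ∑ k, (M i k : K) * (N k j : K) := by
  rw [Matrix.mul_apply]
  change A.val _ = _
  rw [map_sum]
  rfl

/-- MAL'CEV -/
theorem malcev {G K : Type} [Group G] [hfg : Group.FG G] [CommRing K] [IsDomain K] {n : ℕ}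
    (ρ : G →* Matrix (Fin n) (Fin n) K) (S : Set G) (hS : S.Finite) (h1 : ∀ g ∈ S, ρ g ≠ 1) :
    ∃ N : Subgroup G, N.Normal ∧ N.FiniteIndex ∧ ∀ g ∈ S, g ∉ N := by
  classical
  obtain ⟨T, hT⟩ := (Group.fg_iff_monoid_fg.1 hfg).1
  obtain ⟨E, hE⟩ : ∃ E : Set K, E = ⋃ s ∈ (T : Set G), Set.range fun p : Fin n × Fin n => ρ s p.1 p.2 :=
    ⟨_, rfl⟩
  have hEfin : E.Finite := by
    rw [hE]
    exact T.finite_toSet.biUnion fun s _ => Set.finite_range _
  obtain ⟨A, hA⟩ : ∃ A : Subalgebra ℤ K, A = Algebra.adjoin ℤ E := ⟨_, rfl⟩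
  have hAfg : A.FG := ⟨hEfin.toFinset, by rw [hEfin.coe_toFinset, hA]⟩
  have hmem : ∀ g i j, ρ g i j ∈ A := by
    intro g
    have hg : g ∈ Submonoid.closure (T : Set G) := by rw [hT]; trivial
    induction hg using Submonoid.closure_induction with
    | mem s hs =>
      intro i j
      rw [hA]
      apply Algebra.subset_adjoin
      rw [hE]
      exact Set.mem_biUnion hs ⟨(i, j), rfl⟩
    | one =>
      intro i j
      rw [map_one, Matrix.one_apply]
      split_ifs
      · exact one_mem A
      · exact zero_mem A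
    | mul x y _ _ hx hy =>
      intro i j
      rw [map_mul, Matrix.mul_apply]
      exact sum_mem fun k _ => mul_mem (hx i k) (hy k j)
  let ρA : G →* Matrix (Fin n) (Fin n) A :=
    { toFun := fun g => Matrix.of fun i j => ⟨ρ g i j, hmem g i j⟩
      map_one' := by
        ext i j
        change ρ 1 i j = (((1 : Matrix (Fin n) (Fin n) A) i j : A) : K)
        rw [map_one, Matrix.one_apply, Matrix.one_apply]
        split_ifs <;> rfl
      map_mul' := fun x y => by
        ext i j
        rw [coe_mul]
        change ρ (x * y) i j = ∑ k, ρ x i k * ρ y k j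
        rw [map_mul, Matrix.mul_apply] }
  have hft : Algebra.FiniteType ℤ A := A.fg_iff_finiteType.1 hAfg
  -- the entries which are not zero
  have h2 : ∀ g : G, ∃ x : A, (g ∈ S → x ≠ 0) ∧ ∀ m : Ideal A, x ∉ m →
      (Ideal.Quotient.mk m).mapMatrix (ρA g) ≠ 1 := by
    intro g
    by_cases hg : g ∈ S
    · obtain ⟨i, j, hij⟩ : ∃ i j, ρ g i j ≠ (1 : Matrix (Fin n) (Fin n) K) i j := by
        by_contra hcon
        push Not at hcon
        exact h1 g hg (Matrix.ext hcon)
      refine ⟨ρA g i j - (1 : Matrix (Fin n) (Fin n) A) i j, fun _ h => hij ?_, fun m hm h => hm ?_⟩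
      · rw [sub_eq_zero] at h
        have h3 := congrArg (fun x : A => (x : K)) h
        change ρ g i j = _ at h3
        rw [h3, Matrix.one_apply, Matrix.one_apply]
        split_ifs <;> rfl
      · have h3 := congrFun (congrFun h i) j
        rw [RingHom.mapMatrix_apply, Matrix.map_apply] at h3
        rw [← Ideal.Quotient.eq_zero_iff_mem, map_sub, h3, Matrix.one_apply, Matrix.one_apply]
        split_ifs
        · rw [map_one, sub_self]
        · rw [map_zero, sub_self]
    · refine ⟨0, fun h => absurd h hg, fun m hm => absurd (zero_mem m) hm⟩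
  choose x hx0 hxm using h2
  obtain ⟨m, hm, hxm'⟩ := exists_fin (∏ g ∈ hS.toFinset, x g) (by
    rw [Finset.prod_ne_zero_iff]
    intro g hg
    exact hx0 g (hS.mem_toFinset.1 hg))
  let φ : G →* (Matrix (Fin n) (Fin n) (A ⧸ m))ˣ :=
    MonoidHom.toHomUnits ((Ideal.Quotient.mk m).mapMatrix.toMonoidHom.comp ρA)
  have hfin : Finite (Matrix (Fin n) (Fin n) (A ⧸ m)) :=
    inferInstanceAs (Finite (Fin n → Fin n → A ⧸ m))
  have hfin2 : Finite (Matrix (Fin n) (Fin n) (A ⧸ m))ˣ :=
    Finite.of_injective _ Units.val_injective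
  refine ⟨φ.ker, inferInstance, ?_, fun g hg hgN => ?_⟩
  · exact Subgroup.finiteIndex_ker φ
  · have h3 := congrArg Units.val (MonoidHom.mem_ker.1 hgN)
    refine hxm g m (fun h4 => hxm' ?_) h3
    rw [← Finset.mul_prod_erase _ _ (hS.mem_toFinset.2 hg)]
    exact Ideal.mul_mem_right _ _ h4

end Pool.Agent.ToVT
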