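import Pool.Agent.Lib.MP_305fdd_al.To.ST.Lat
import Pool.Agent.Lib.MP_305fdd_al.To.VT.Mal

/-!
# MP_305fdd_al, lattices with torsion: cocompact lattices are virtually torsion free

For `L : Lat G` (a discrete cocompact action on the hyperbolic plane): `G` is finitely generated
(`fg`), residually finite (`rf`), not commutative (`not_comm`), and has a torsion free normal subgroup
of finite index (`exists_tf`).  A subgroup of finite index has the same structure (`sub`).
-/

set_option autoImplicit false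

namespace Pool.Agent.ToVT

open Pool.Agent.ToST

/-! ## Inequalities -/

theorem cs_orth {Y x z : V} (hY : Y ∈ Om) (hx : B Y x = 0) (hz : B Y z = 0) :
    (B x z) ^ 2 ≤ B x x * B z z := by
  by_cases h0 : z = 0
  · subst h0
    rw [B_zero_right, B_zero_right]
    simp
  have h1 : B z z < 0 := B_neg_of_orth hY hz h0
  obtain ⟨v, hv⟩ : ∃ v, v = B z z • x - B x z • z := ⟨_, rfl⟩
  have h2 : B Y v = 0 := by
    rw [hv, B_sub_right, B_smul_right, B_smul_right, hx, hz]
    ring
  have h3 : B v v ≤ 0 := by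
    by_cases h : v = 0
    · rw [h, B_zero_left]
    · exact (B_neg_of_orth hY h2 h).le
  have h4 : B v v = B z z * (B z z * B x x - (B x z) ^ 2) := by
    rw [hv]
    simp only [B_sub_left, B_sub_right, B_smul_left, B_smul_right]
    rw [B_comm z x]
    ring
  rw [h4] at h3
  nlinarith

/-- the triangle inequality -/
theorem tri {X Y Z : V} (hX : X ∈ Om) (hY : Y ∈ Om) (hZ : Z ∈ Om) (h1 : B Y Y = 1) :
    B X Z ≤ 2 * (B X Y * B Y Z) := by
  obtain ⟨a, ha⟩ : ∃ a, a = B X Y := ⟨_, rfl⟩
  obtain ⟨c, hc⟩ : ∃ c, c = B Y Z := ⟨_, rfl⟩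
  have ha0 : 0 < a := by rw [ha]; exact B_pos hX hY
  have hc0 : 0 < c := by rw [hc]; exact B_pos hY hZ
  have e1 : B Y (X - a • Y) = 0 := by
    rw [B_sub_right, B_smul_right, h1, B_comm Y X, ← ha]
    ring
  have e2 : B Y (Z - c • Y) = 0 := by
    rw [B_sub_right, B_smul_right, h1, ← hc]
    ring
  have e3 := cs_orth hY e1 e2
  have e4 : B (X - a • Y) (Z - c • Y) = B X Z - a * c := by
    simp only [B_sub_left, B_sub_right, B_smul_left, B_smul_right, h1]
    rw [← ha, ← hc]
    ring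
  have e5 : B (X - a • Y) (X - a • Y) = B X X - a ^ 2 := by
    simp only [B_sub_left, B_sub_right, B_smul_left, B_smul_right, h1]
    rw [B_comm Y X, ← ha]
    ring
  have e6 : B (Z - c • Y) (Z - c • Y) = B Z Z - c ^ 2 := by
    simp only [B_sub_left, B_sub_right, B_smul_left, B_smul_right, h1]
    rw [B_comm Z Y, ← hc]
    ring
  rw [e4, e5, e6] at e3
  have e7 : B X X - a ^ 2 ≤ 0 := by
    rw [← e5]
    by_cases h : X - a • Y = 0
    · rw [h, B_zero_left]
    · exact (B_neg_of_orth hY e1 h).le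
  have e8 : B Z Z - c ^ 2 ≤ 0 := by
    rw [← e6]
    by_cases h : Z - c • Y = 0
    · rw [h, B_zero_left]
    · exact (B_neg_of_orth hY e2 h).le
  have e9 : (B X Z - a * c) ^ 2 ≤ (a * c) ^ 2 := by
    refine e3.trans ?_
    have := hX.1
    have := hZ.1
    nlinarith [sq_nonneg a, sq_nonneg c, mul_pos ha0 hc0]
  have e10 : B X Z - a * c ≤ a * c := by
    have h := abs_le_of_sq_le_sq e9 (mul_pos ha0 hc0).le
    exact (le_abs_self _).trans h
  rw [← ha, ← hc]
  linarith

/-- normalisation -/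
theorem exists_unit {Z : V} (hZ : Z ∈ Om) : ∃ c : ℝ, 0 < c ∧ c • Z ∈ Om ∧ B (c • Z) (c • Z) = 1 := by
  have h := hZ.1
  refine ⟨(Real.sqrt (B Z Z))⁻¹, by positivity, Om_smul (by positivity) hZ, ?_⟩
  rw [B_smul_left, B_smul_right, ← mul_assoc, ← mul_inv, Real.mul_self_sqrt h.le]
  exact inv_mul_cancel₀ h.ne'

theorem add_smul_mem {u : V} (h0 : 0 ≤ B u u) (hu : 0 < u 0) {P : V} (hP : P ∈ Om) {e : ℝ}
    (he : 0 < e) : u + e • P ∈ Om := by
  refine ⟨?_, ?_⟩
  · simp only [B_add_left, B_add_right, B_smul_left, B_smul_right]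
    have h1 := B_pos' hP h0 hu
    rw [B_comm u P]
    have := hP.1
    nlinarith [mul_pos he h1, mul_pos he (mul_pos he this)]
  · have := hP.2
    simp only [Pi.add_apply, Pi.smul_apply, smul_eq_mul]
    positivity

/-- an element of the light cone which is orthogonal to a lightlike vector (special cases) -/
theorem light1 {w : V} (hw : B w w = 0) (h : B ![1, 1, 0] w = 0) : w = w 0 • ![1, 1, 0] := by
  simp [B] at h hw
  have h1 : w 1 = w 0 := by linarith
  have h2 : w 2 = 0 := by
    rw [h1] at hw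
    nlinarith
  ext i
  fin_cases i
  · simp
  · simpa using h1
  · simpa using h2

theorem light2 {w : V} (hw : B w w = 0) (h : B ![1, -1, 0] w = 0) : w = w 0 • ![1, -1, 0] := by
  simp [B] at h hw
  have h1 : w 1 = - w 0 := by linarith
  have h2 : w 2 = 0 := by
    rw [h1] at hw
    nlinarith
  ext i
  fin_cases i
  · simp
  · simpa using h1
  · simpa using h2

theorem light3 {w : V} (hw : B w w = 0) (h : B ![1, 0, 1] w = 0) : w = w 0 • ![1, 0, 1] := by
  simp [B] at h hw
  have h1 : w 2 = w 0 := by linarith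
  have h2 : w 1 = 0 := by
    rw [h1] at hw
    nlinarith
  ext i
  fin_cases i
  · simp
  · simpa using h2
  · simpa using h1

section lat

variable {G : Type} [Group G] (L : Lat G)
include L

theorem act_mem (g : G) : L.act g L.P ∈ Om := L.Om_act g _ L.P_mem

theorem act_one (g : G) : B (L.act g L.P) (L.act g L.P) = 1 := by rw [L.B_act, L.P_one]

theorem act_mul (g h : G) (Z : V) : L.act (g * h) Z = L.act g (L.act h Z) := by
  rw [map_mul]
  rfl

theorem act_id (Z : V) : L.act 1 Z = Z := by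
  rw [map_one]
  rfl

theorem act_inv (g : G) (Z : V) : L.act g⁻¹ (L.act g Z) = Z := by
  rw [← act_mul L, inv_mul_cancel, act_id L]

theorem act_inv' (g : G) (Z : V) : L.act g (L.act g⁻¹ Z) = Z := by
  rw [← act_mul L, mul_inv_cancel, act_id L]

theorem B_inv (g : G) (u v : V) : B (L.act g⁻¹ u) v = B u (L.act g v) := by
  rw [← L.B_act g, act_inv' L]

/-- every point is near the orbit -/
theorem coc1 : ∃ R : ℝ, 0 < R ∧ ∀ Z ∈ Om, B Z Z = 1 → ∃ g : G, B Z (L.act g L.P) ≤ R := by
  obtain ⟨R, hR⟩ := L.coc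
  have key : ∀ Z ∈ Om, B Z Z = 1 → ∃ g : G, B Z (L.act g L.P) ≤ R := by
    intro Z hZ h1
    obtain ⟨g, hg⟩ := hR Z hZ
    refine ⟨g, ?_⟩
    rw [h1, mul_one] at hg
    have h2 := one_le_B hZ (act_mem L g) h1 (act_one L g)
    nlinarith
  refine ⟨R, ?_, key⟩
  obtain ⟨g, hg⟩ := key L.P L.P_mem L.P_one
  have h2 := one_le_B L.P_mem (act_mem L g) L.P_one (act_one L g)
  linarith

/-! ## Finite generation -/

theorem fg : Group.FG G := by
  obtain ⟨R, hR0, hR⟩ := coc1 L
  obtain ⟨S, hS⟩ : ∃ S : Set G, S = {g | B L.P (L.act g L.P) ≤ 8 * (R * R)} := ⟨_, rfl⟩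
  have hSf : S.Finite := by rw [hS]; exact L.fin _
  have key : ∀ n : ℕ, ∀ X ∈ Om, ∀ Y ∈ Om, B X X = 1 → B Y Y = 1 → B X Y ≤ 2 ^ (2 ^ n) →
      ∀ g h : G, B X (L.act g L.P) ≤ R → B Y (L.act h L.P) ≤ R → g⁻¹ * h ∈ Subgroup.closure S := by
    intro n
    induction n with
    | zero =>
      intro X hX Y hY hX1 hY1 hXY g h hg hh
      apply Subgroup.subset_closure
      rw [hS]
      change B L.P (L.act (g⁻¹ * h) L.P) ≤ 8 * (R * R)
      rw [act_mul L, B_comm, B_inv L, B_comm]
      have e1 := tri (act_mem L g) hX (act_mem L h) hX1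
      have e2 := tri hX hY (act_mem L h) hY1
      rw [B_comm (L.act g L.P) X] at e1
      norm_num at hXY
      have p1 := B_pos hX (act_mem L g)
      have p2 := B_pos hY (act_mem L h)
      have p3 := B_pos hX hY
      calc B (L.act g L.P) (L.act h L.P) ≤ 2 * (B X (L.act g L.P) * B X (L.act h L.P)) := e1
        _ ≤ 2 * (B X (L.act g L.P) * (2 * (B X Y * B Y (L.act h L.P)))) := by gcongr
        _ ≤ 2 * (R * (2 * (2 * R))) := by gcongr
        _ = 8 * (R * R) := by ring
    | succ n ih =>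
      intro X hX Y hY hX1 hY1 hXY g h hg hh
      obtain ⟨b, hb⟩ : ∃ b, b = B X Y := ⟨_, rfl⟩
      have hb1 : 1 ≤ b := by rw [hb]; exact one_le_B hX hY hX1 hY1
      obtain ⟨c, hc, hM, hM1⟩ := exists_unit (Om_add hX hY)
      have hcb : c ^ 2 * (2 + 2 * b) = 1 := by
        simp only [B_smul_left, B_smul_right, B_add_left, B_add_right, hX1, hY1] at hM1
        rw [B_comm Y X, ← hb] at hM1
        linarith
      have hXM : B X (c • (X + Y)) = c * (1 + b) := by
        rw [B_smul_right, B_add_right, hX1, ← hb]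
      have hMY : B (c • (X + Y)) Y = c * (1 + b) := by
        rw [B_smul_left, B_add_left, hY1, ← hb]
        ring
      have hle : c * (1 + b) ≤ 2 ^ (2 ^ n) := by
        have e1 : (c * (1 + b)) ^ 2 ≤ (2 ^ (2 ^ n)) ^ 2 := by
          have e2 : (c * (1 + b)) ^ 2 = (1 + b) / 2 := by
            have : c ^ 2 * (1 + b) = 1 / 2 := by linarith
            calc (c * (1 + b)) ^ 2 = (c ^ 2 * (1 + b)) * (1 + b) := by ring
              _ = (1 + b) / 2 := by rw [this]; ring
          rw [e2]
          have e3 : ((2 : ℝ) ^ (2 ^ n)) ^ 2 = 2 ^ (2 ^ (n + 1)) := by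
            rw [← pow_mul, pow_succ 2 n]
          rw [e3]
          rw [← hb] at hXY
          linarith
        exact le_of_sq_le_sq e1 (by positivity)
      obtain ⟨m, hm⟩ := hR _ hM hM1
      have r1 := ih X hX _ hM hX1 hM1 (hXM.le.trans hle) g m hg hm
      have r2 := ih _ hM Y hY hM1 hY1 (hMY.le.trans hle) m h hm hh
      have r3 := Subgroup.mul_mem _ r1 r2
      have r4 : g⁻¹ * m * (m⁻¹ * h) = g⁻¹ * h := by group
      rwa [r4] at r3
  rw [Group.fg_iff]
  refine ⟨S, ?_, hSf⟩
  rw [eq_top_iff]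
  intro g _
  obtain ⟨g0, hg0⟩ := hR L.P L.P_mem L.P_one
  obtain ⟨n, hn⟩ : ∃ n : ℕ, B L.P (L.act g L.P) ≤ 2 ^ (2 ^ n) := by
    obtain ⟨n, hn⟩ := exists_nat_ge (B L.P (L.act g L.P))
    refine ⟨n, hn.trans ?_⟩
    have h1 : n ≤ 2 ^ (2 ^ n) := (Nat.lt_two_pow_self.trans Nat.lt_two_pow_self).le
    exact_mod_cast h1
  have h1 : B L.P (L.act 1 L.P) ≤ R := by
    rw [act_id L, L.P_one]
    have := one_le_B L.P_mem (act_mem L g0) L.P_one (act_one L g0)
    linarith
  have h2 : B (L.act g L.P) (L.act g L.P) ≤ R := by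
    rw [act_one L, ← L.P_one]
    rwa [act_id L] at h1
  have h3 := key n L.P L.P_mem _ (act_mem L g) L.P_one (act_one L g) hn 1 g h1 h2
  rwa [inv_one, one_mul] at h3

/-! ## Residual finiteness -/

/-- finitely many elements are avoided by a normal subgroup of finite index -/
theorem avoid (S : Set G) (hS : S.Finite) (h1 : ∀ g ∈ S, g ≠ 1) :
    ∃ N : Subgroup G, N.Normal ∧ N.FiniteIndex ∧ ∀ g ∈ S, g ∉ N := by
  have := fg L
  let ρ : G →* Matrix (Fin 3) (Fin 3) ℝ :=
    { toFun := fun g => LinearMap.toMatrix' (L.act g)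
      map_one' := by
        rw [map_one]
        exact LinearMap.toMatrix'_one
      map_mul' := fun x y => by
        rw [map_mul]
        exact LinearMap.toMatrix'_mul _ _ }
  refine malcev ρ S hS (fun g hg h => h1 g hg (L.free g ?_))
  have h2 : LinearMap.toMatrix' (L.act g) = 1 := h
  have h3 : L.act g = LinearMap.id := by
    apply LinearMap.toMatrix'.injective
    rw [h2]
    exact LinearMap.toMatrix'_id.symm
  rw [h3]
  rfl

theorem rf : Group.ResiduallyFinite G := by
  rw [Group.residuallyFinite_iff_exists_finiteIndex]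
  intro g hg
  obtain ⟨N, _, h2, h3⟩ := avoid L {g} (Set.finite_singleton g) (by
    rintro _ rfl
    exact hg)
  exact ⟨N, h2, h3 g rfl⟩

end lat

end Pool.Agent.ToVT
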