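import Pool.Agent.Lib.MP_305fdd_al.To.VT.Tf
import Pool.Agent.Lib.MP_305fdd_al.Su.Top.T7

/-!
# MP_305fdd_al, lattices with torsion: the genus of a torsion free cocompact lattice is at least two
-/

set_option autoImplicit false

namespace Pool.Agent.ToVT

open Pool.Agent.ToST

/-- the genus of a cocompact lattice which is a surface group is at least two -/
theorem two_le {G : Type} [Group G] (L : Lat G) {g : ℕ} (e : G ≃* Su.SurfaceGroup g) : 2 ≤ g := by
  by_contra h
  push Not at h
  apply not_comm L
  intro x y
  apply e.injective
  rw [map_mul, map_mul]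
  have hg : g = 0 ∨ g = 1 := by omega
  rcases hg with rfl | rfl
  · exact SuTop.surf_zero_eq _ _
  · exact SuTop.surf_one_comm _ _

end Pool.Agent.ToVT
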