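import Pool.Agent.Lib.MP_305fdd_al.To.VT.Main
import Pool.Agent.Lib.MP_305fdd_al.To.ST.Main

/-!
# MP_305fdd_al, lattices with torsion: torsion free subgroups of finite index are surface groups
-/

set_option autoImplicit false

namespace Pool.Agent.ToVT

open Pool.Agent.ToST

/-- a torsion free subgroup of finite index of a cocompact lattice is a surface group of genus at
least two -/
theorem surf {G : Type} [Group G] (L : Lat G) (H : Subgroup G) [H.FiniteIndex]
    (htf : ∀ x ∈ H, ∀ n : ℕ, 0 < n → x ^ n = 1 → x = 1) :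
    ∃ g, 2 ≤ g ∧ Nonempty (H ≃* Su.SurfaceGroup g) := by
  obtain ⟨g, ⟨e⟩⟩ := (sub L H).surface (fun x n hn hx => by
    apply Subtype.ext
    apply htf x.1 x.2 n hn
    rw [← Subgroup.coe_pow, hx, Subgroup.coe_one])
  exact ⟨g, two_le (sub L H) e, ⟨e⟩⟩

end Pool.Agent.ToVT
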